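import Mathlib
import Pool.Agent.Lib.helper22.H10c

namespace Pool.Agent.H.MP_ed747a_al

open Filter Topology Equiv

abbrev X := ℕ → Bool

def cat (l : List Bool) (w : X) : X := fun k => if h : k < l.length then l.get ⟨k, h⟩ else w (k - l.length)
def sh (K : ℕ) (w : X) : X := fun i => w (i + K)
def cn (b : Bool) (w : X) : X
  | 0 => b
  | k + 1 => w k

theorem cat_add (l : List Bool) (w : X) (i : ℕ) : cat l w (i + l.length) = w i := by simp [cat]
theorem cat_lt {l : List Bool} (w w' : X) {i : ℕ} (h : i < l.length) : cat l w i = cat l w' i := by simp [cat, h]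
theorem cat_inj (l : List Bool) : Function.Injective (cat l) := fun _ _ h => funext fun i => by
  simpa [cat_add] using congrFun h (i + l.length)
theorem cat_nil (w : X) : cat [] w = w := by funext; simp [cat]
theorem cat_cons (b : Bool) (l : List Bool) (w : X) : cat (b :: l) w = cn b (cat l w) := by
  funext k; cases k <;> simp [cat, cn]
theorem cat_append (l m : List Bool) (w : X) : cat (l ++ m) w = cat l (cat m w) := by
  induction l <;> simp [cat_nil, cat_cons, *]
theorem ext_at {y z : X} (K : ℕ) (h : ∀ i < K, y i = z i) (k : ∀ i, y (i + K) = z (i + K)) : y = z := funext fun i => by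
  rcases lt_or_ge i K with a | a
  exacts [h i a, by simpa [a] using k (i - K)]
theorem cat_sh {l : List Bool} {y w : X} (h : ∀ i < l.length, w i = cat l y i) : cat l (sh l.length w) = w :=
  ext_at l.length (fun i a => (cat_lt _ _ a).trans (h i a).symm) fun _ => cat_add ..
theorem cat_cont (l : List Bool) : Continuous (cat l) := continuous_pi fun k => by
  unfold cat; split_ifs <;> fun_prop

theorem cyl (y : X) (K : ℕ) : ∀ᶠ w in 𝓝 y, ∀ i < K, w i = y i :=
  (eventually_all_finite (Set.finite_Iio K)).2 fun i _ => (continuous_apply i).continuousAt ((isOpen_discrete {y i}).mem_nhds rfl)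

/-- `f` replaces the first `K` letters (those of `y`) by the first `M` letters of `z` -/
def G (y z : X) (f : X → X) (K M : ℕ) : Prop :=
  ∀ w, (∀ i < K, w i = y i) → (∀ i < M, f w i = z i) ∧ ∀ i, f w (i + M) = w (i + K)

variable {y z t : X} {f g : X → X} {K M N : ℕ}

theorem G.add (h : G y (f y) f K M) (j : ℕ) : G y (f y) f (K + j) (M + j) := fun w a => by
  have := h w fun i b => a i (by omega)
  refine ⟨fun i b => ?_, fun i => by simpa [add_assoc, add_comm j] using this.2 (i + j)⟩
  rcases lt_or_ge i M with e | e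
  · exact this.1 i e
  · obtain ⟨i, rfl⟩ := Nat.exists_eq_add_of_le' e
    rw [this.2, (h y fun _ _ => rfl).2, a _ (by omega)]

theorem G.comp (h : G y z f K M) (k : G z t g M N) : G y t (g ∘ f) K N := fun w a =>
  ⟨(k _ (h w a).1).1, fun i => ((k _ (h w a).1).2 i).trans ((h w a).2 i)⟩

theorem G.ev (h : G y z f K M) (k : G y z g K M) : f =ᶠ[𝓝 y] g := (cyl y K).mono fun w a =>
  ext_at M (fun i b => ((h w a).1 i b).trans ((k w a).1 i b).symm) fun i => ((h w a).2 i).trans ((k w a).2 i).symm

/-- Thompson's group, by its local description -/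
def V : Subgroup (Perm X) where
  carrier := {f | ∀ y, ∃ K M, G y (f y) f K M}
  one_mem' y := ⟨0, 0, fun _ _ => ⟨by simp, fun _ => rfl⟩⟩
  mul_mem' {g f} a b y := by
    obtain ⟨K, M, h⟩ := b y
    obtain ⟨K', M', k⟩ := a (f y)
    exact ⟨_, _, (h.add K').comp (add_comm K' M ▸ k.add M)⟩
  inv_mem' {f} a z := by
    obtain ⟨y, rfl⟩ := f.surjective z
    obtain ⟨K, M, h⟩ := a y
    refine ⟨M, K, fun w b => ?_⟩
    have e := h (fun i => if i < K then y i else w (i - K + M)) (by simp +contextual)
    rw [← ext_at M (fun i c => (e.1 i c).trans (b i c).symm) fun i => (e.2 i).trans (by simp)]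
    simp +contextual [e.2]

theorem cont {f : Perm X} (h : f ∈ V) : Continuous f := continuous_iff_continuousAt.2 fun y => tendsto_pi_nhds.2 fun i => by
  obtain ⟨K, M, h⟩ := h y
  exact tendsto_const_nhds.congr' ((cyl y _).mono fun w a => ((h.add (i + 1) w a).1 i (by omega)).symm)

/-- action on a cone -/
noncomputable def On (a : List Bool) : Perm X →* Perm X := Perm.viaEmbeddingHom ⟨cat a, cat_inj a⟩

theorem on_cat (a : List Bool) (f : Perm X) (w : X) : On a f (cat a w) = cat a (f w) := Perm.viaEmbedding_apply f ⟨_, cat_inj a⟩ w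
theorem on_not {a : List Bool} (f : Perm X) (h : y ∉ Set.range (cat a)) : On a f y = y :=
  Perm.viaEmbedding_apply_of_notMem f ⟨_, cat_inj a⟩ y h
theorem on_nil (f : Perm X) : On [] f = f := Perm.ext fun w => by simpa [cat_nil] using on_cat [] f w

theorem on_mem (a : List Bool) {f : Perm X} (h : f ∈ V) : On a f ∈ V := fun y => by
  by_cases e : y ∈ Set.range (cat a)
  · obtain ⟨y, rfl⟩ := e
    obtain ⟨K, M, h⟩ := h y
    refine ⟨K + a.length, M + a.length, fun w b => ?_⟩
    have := h (sh a.length w) fun i c => (b _ (by omega)).trans (cat_add ..)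
    rw [← cat_sh (fun i c => b i (by omega)), on_cat, on_cat]
    refine ⟨fun i c => ?_, fun i => by rw [← add_assoc, ← add_assoc, cat_add, cat_add, this.2]⟩
    rcases lt_or_ge i a.length with e | e
    · exact cat_lt _ _ e
    · obtain ⟨i, rfl⟩ := Nat.exists_eq_add_of_le' e
      rw [cat_add, cat_add, this.1 i (by omega)]
  · refine ⟨a.length, a.length, fun w b => ?_⟩
    rw [on_not f e, on_not f fun ⟨u, c⟩ => e ⟨_, cat_sh (y := u) fun i d => by rw [c, b i d]⟩]
    exact ⟨b, fun _ => rfl⟩

theorem comm_on {a : List Bool} {φ : Perm X} (f : Perm X) (h : ∀ w, φ (cat a w) = cat a w) : Commute φ (On a f) :=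
  Perm.Disjoint.commute fun y => (em (y ∈ Set.range (cat a))).imp (fun ⟨w, e⟩ => e ▸ h w) (on_not f)

def s (b : Bool) (y : X) : X := if y 0 = b then cn b y else if y 1 = b then cn b (cn (!b) (sh 2 y)) else sh 1 y

theorem s_s (b : Bool) (y : X) : s (!b) (s b y) = y := by
  funext i
  rcases i with _ | _ | i <;> cases b <;> cases h : y 0 <;> cases k : y 1 <;> simp [s, cn, sh, h, k]

def e (b : Bool) : Perm X := ⟨s b, s !b, s_s b, fun y => by simpa using s_s (!b) y⟩
def c : Perm X := e true

theorem e_mem (b : Bool) : e b ∈ V := fun y => ⟨2, if y 0 = b then 3 else if y 1 = b then 2 else 1, fun w h => by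
  have h0 := h 0 (by simp)
  have h1 := h 1 (by simp)
  simp only [e, s, coe_fn_mk, h0, h1]
  split_ifs <;> refine ⟨fun i a => ?_, fun i => rfl⟩ <;> interval_cases i <;> simp [cn, sh, h0, h1]⟩

theorem e_fix (b b' : Bool) : e b (fun _ => b') = fun _ => b' := by
  funext i
  rcases i with _ | i <;> cases b <;> cases b' <;> simp [e, s, cn, sh]

theorem up {b : Bool} (h1 : ∀ y, y 0 = b → g y = cn b y) (h : y 0 = b) (n : ℕ) : ∀ i ≤ n, g^[n] y i = b := by
  induction n with
  | zero => simpa
  | succ n ih =>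
    rw [Function.iterate_succ_apply', h1 _ (ih 0 n.zero_le)]
    rintro (_ | i) a
    exacts [rfl, ih i (by omega)]

theorem att {b : Bool} (h1 : ∀ y, y 0 = b → g y = cn b y) (h2 : ∀ k y, y (k + 1) = b → ∃ i ≤ k, g y i = b) (hy : y ≠ fun _ => !b) :
    Tendsto (fun n => g^[n] y) atTop (𝓝 fun _ => b) := by
  obtain ⟨i, h⟩ : ∃ i, y i = b := by simpa using Function.ne_iff.1 hy
  obtain ⟨n, h⟩ : ∃ n, g^[n] y 0 = b := by
    clear hy
    induction i using Nat.strong_induction_on generalizing y with
    | h i ih =>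
      rcases i with _ | i
      · exact ⟨0, h⟩
      · obtain ⟨j, a, k⟩ := h2 i y h
        exact (ih j (by omega) k).elim fun n k => ⟨n + 1, k⟩
  refine tendsto_pi_nhds.2 fun j => tendsto_const_nhds.congr' ((eventually_ge_atTop (j + n)).mono fun m a => ?_)
  obtain ⟨m, rfl⟩ := Nat.exists_eq_add_of_le' (le_of_add_le_right a)
  exact ((congrFun (Function.iterate_add_apply ..) j).trans (up h1 h m j (by omega))).symm

theorem s1 (b : Bool) (y : X) (h : y 0 = b) : e b y = cn b y := if_pos h
theorem s2 (b : Bool) (k : ℕ) (y : X) (h : y (k + 1) = b) : ∃ i ≤ k, e b y i = b := by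
  simp only [e, s, coe_fn_mk]
  split_ifs
  exacts [⟨0, by simp, rfl⟩, ⟨0, by simp, rfl⟩, ⟨k, le_rfl, h⟩]

theorem att_on (a : List Bool) (b : Bool) {k : ℕ} (hk : 0 < k) (hy : y ≠ fun _ => !b) :
    Tendsto (fun n => ((On a (e b) ^ k) ^ n) (cat a y)) atTop (𝓝 (cat a fun _ => b)) := by
  simp only [← pow_mul, ← map_pow, on_cat, Perm.coe_pow]
  exact ((cat_cont a).tendsto _).comp ((att (s1 b) (s2 b) hy).comp (tendsto_id.const_mul_atTop' hk))

theorem fix_of {φ ψ : Perm X} (h : Commute φ ψ) (k : φ =ᶠ[𝓝 z] id) (l : Tendsto (fun n => (ψ ^ n) y) atTop (𝓝 z)) : φ y = y := by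
  obtain ⟨n, a⟩ := (l.eventually k).exists
  exact (ψ ^ n).injective ((congrArg (· y) (h.pow_right n).eq).symm.trans a)

theorem fix_end {a : List Bool} {φ : Perm X} (hφ : φ ∈ V) (b : Bool) {k l : ℕ} (hk : 0 < k) (hl : 0 < l)
    (h : φ * On a (e b) ^ k = On a (e b) ^ l * φ) : φ (cat a fun _ => b) = cat a fun _ => b := by
  have ne : ∀ b', cn b (fun _ => !b) ≠ fun _ => b' := fun b' a => by cases b <;> simpa [cn, ← congrFun a 0] using congrFun a 1
  have t := att_on a b hk (ne _)
  have hn : ∀ n y, φ (((On a (e b) ^ k) ^ n) y) = ((On a (e b) ^ l) ^ n) (φ y) := fun n y => congrArg (· y) (SemiconjBy.pow_right h n).eq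
  have mv : (On a (e b) ^ l) (φ (cat a (cn b fun _ => !b))) ≠ φ (cat a (cn b fun _ => !b)) := fun d => by
    have := φ.injective ((congrArg (· (cat a (cn b fun _ => !b))) h).trans d)
    simp only [Perm.pow_apply_eq_self_of_apply_eq_self this] at t
    exact ne _ (cat_inj a (tendsto_const_nhds_iff.1 t))
  obtain ⟨y, hy⟩ : φ (cat a (cn b fun _ => !b)) ∈ Set.range (cat a) := by_contra fun d => mv (by rw [← map_pow, on_not _ d])
  refine tendsto_nhds_unique (((cont hφ).tendsto _).comp t) ?_
  simp only [Function.comp_def, hn, ← hy]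
  refine att_on a b hl fun d => mv ?_
  rw [← hy, d, ← map_pow, on_cat, Perm.pow_apply_eq_self_of_apply_eq_self (e_fix ..)]

/-- pairs with the same germ -/
def R (l : Filter X) : Subgroup (Perm X × Perm X) where
  carrier := {p | p.1 =ᶠ[l] p.2 ∧ Tendsto p.2 l l ∧ Tendsto ⇑p.2⁻¹ l l}
  one_mem' := ⟨.rfl, tendsto_id, tendsto_id⟩
  mul_mem' {p q} a b := ⟨(b.1.fun_comp p.1).trans (b.2.1.eventually a.1), a.2.1.comp b.2.1, b.2.2.comp a.2.2⟩
  inv_mem' {p} a := ⟨(a.2.2.eventually a.1).mono fun w h => Perm.inv_eq_iff_eq.2 (by simpa using h.symm), a.2.2, a.2.1⟩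

theorem mem_R {φ ψ : Perm X} (h : φ =ᶠ[𝓝 y] ψ) (k : ψ ∈ V) (l : ψ y = y) : (φ, ψ) ∈ R (𝓝 y) :=
  ⟨h, (cont k).tendsto' _ _ l, (cont (inv_mem k)).tendsto' _ _ (Perm.inv_eq_iff_eq.2 l.symm)⟩

theorem per {n : ℤ} (h : (c ^ n) (cn false fun _ => true) = cn false fun _ => true) : n = 0 := by
  have : ∀ b (k : ℕ), (e b ^ k) (cn false fun _ => true) = cn false (fun _ => true) → k = 0 := fun b k d => by_contra fun a => by
    have ne : ∀ b', cn false (fun _ => true) ≠ fun _ => b' := fun b' a => by simpa [cn, ← congrFun a 0] using congrFun a 1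
    have t := att_on [] b (Nat.pos_of_ne_zero a) (ne _)
    simp only [on_nil, cat_nil, Perm.pow_apply_eq_self_of_apply_eq_self d] at t
    exact ne _ (tendsto_const_nhds_iff.1 t)
  obtain ⟨k, rfl | rfl⟩ := n.eq_nat_or_neg
  · simp [this true k (by rwa [zpow_natCast] at h)]
  · simp [this false k (by rwa [zpow_neg, zpow_natCast, ← inv_pow] at h)]

theorem germ_inj (a : List Bool) {m n : ℤ} (h : ⇑(On a c ^ m) =ᶠ[𝓝 (cat a fun _ => false)] ⇑(On a c ^ n)) : m = n := by
  have := fix_of (φ := On a c ^ (-n + m)) (.pow_right (.zpow_left ((Commute.refl c).inv_right.map _) _) 1)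
    (h.mono fun w d => by simp [zpow_add, d]) (att_on (y := cn false fun _ => true) a false one_pos fun d => by simpa [cn] using congrFun d 0)
  rw [← map_zpow, on_cat] at this
  have := per (cat_inj a this)
  omega

theorem ns {a : List Bool} {φ : Perm X} (hφ : φ ∈ V) {k l : ℕ} (hk : 0 < k) (hl : 0 < l) (h : φ * On a c ^ k = On a c ^ l * φ) :
    k = l ∧ ∃ n : ℤ, ∀ w, φ (cat a w) = cat a ((c ^ n) w) := by
  have i : On a (e false) = (On a c)⁻¹ := map_inv (On a) c
  have h' : φ * On a (e false) ^ k = On a (e false) ^ l * φ := by simpa [i] using (SemiconjBy.inv_right h).eq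
  have hP := fix_end hφ false hk hl h'
  have fx : ∀ (n : ℤ) b, (On a c ^ n) (cat a fun _ => b) = cat a fun _ => b := fun n b =>
    Perm.zpow_apply_eq_self_of_apply_eq_self (by rw [on_cat, c, e_fix]) n
  have d1 : ∀ j, G (cat a fun _ => false) (cat a fun _ => false) (On a (e false)) (a.length + 1 + j) (a.length + 2 + j) := fun j => by
    have : G (cat a fun _ => false) (On a (e false) (cat a fun _ => false)) (On a (e false)) (a.length + 1) (a.length + 2) := fun w b => by
      have b0 : sh a.length w 0 = false := (b _ (by simp)).trans (cat_add ..)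
      rw [← cat_sh (fun i c => b i (by omega)), on_cat, on_cat, s1 _ _ b0, e_fix]
      refine ⟨fun i d => ?_, fun i => by rw [add_comm _ 2, add_comm _ 1, ← add_assoc, ← add_assoc, cat_add, cat_add]; rfl⟩
      rcases lt_or_ge i a.length with e | e
      · exact cat_lt _ _ e
      · obtain ⟨i, rfl⟩ := Nat.exists_eq_add_of_le' e
        rw [cat_add, cat_add]
        obtain rfl | rfl : i = 0 ∨ i = 1 := by omega
        exacts [rfl, b0]
    simpa only [on_cat, e_fix] using this.add j
  have dm : ∀ j m, G (cat a fun _ => false) (cat a fun _ => false) ⇑(On a (e false) ^ m) (a.length + 1 + j) (a.length + 1 + j + m) := fun j m => by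
    induction m with
    | zero => exact fun w b => ⟨b, fun _ => rfl⟩
    | succ m ih => rw [pow_succ']; convert ih.comp (add_assoc _ j m ▸ d1 (j + m)) using 1 <;> first | rfl | omega
  obtain ⟨K, M, g⟩ := hφ (cat a fun _ => false)
  have g := g.add (a.length + 1)
  rw [hP, add_comm K, add_comm M] at g
  have r : (φ, On a c ^ (K - M : ℤ)) ∈ R (𝓝 (cat a fun _ => false)) := mem_R (((g.comp (dm M K)).ev (by
    convert dm K M using 1; omega)).mono fun w d => by
      simpa [i, sub_eq_add_neg, zpow_add, symm_apply_eq] using d) (zpow_mem (on_mem a (e_mem _)) _) (fx _ _)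
  have r' := fun n : ℤ => mem_R (ψ := On a c ^ n) .rfl (zpow_mem (on_mem a (e_mem true)) n) (fx n false)
  obtain rfl : k = l := by
    have := germ_inj a (m := K - M + k) (n := l + (K - M)) (by
      simpa [zpow_add] using (mul_mem r (r' k)).1.symm.trans (by simpa [← Perm.coe_mul, ← h] using (mul_mem (r' l) r).1))
    omega
  refine ⟨rfl, K - M, fun w => ?_⟩
  rw [← on_cat, map_zpow]
  by_cases hw : w = fun _ => true
  · rw [hw, fx]; exact fix_end hφ true hk hk h
  refine Perm.inv_eq_iff_eq.1 (fix_of (φ := (On a c ^ (K - M : ℤ))⁻¹ * φ) (.mul_left ?_ h') (r.1.mono fun w d => ?_) (att_on a false hk hw))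
  · exact i ▸ ((Commute.refl _).inv_right.pow_right _).zpow_left _ |>.inv_left
  · exact Perm.inv_eq_iff_eq.2 d

end Pool.Agent.H.MP_ed747a_al
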