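import Mathlib
import Pool.Agent.H.MP_ed747a_al.A

namespace Pool.Agent.H.MP_ed747a_al

open Filter Topology Equiv Pool.Agent.Lib.H10

theorem ns1 {a : List Bool} {φ : Perm X} (hφ : φ ∈ V) (h : Commute φ (On a c)) : ∃ n : ℤ, ∀ w, φ (cat a w) = cat a ((c ^ n) w) :=
  (ns hφ one_pos one_pos (by simpa using h.eq)).2

theorem ns0 {φ : Perm X} (hφ : φ ∈ V) (h : Commute φ (On [] c)) : ∃ n : ℤ, φ = c ^ n :=
  (ns1 hφ h).imp fun _ k => Perm.ext fun w => by simpa [cat_nil] using k w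

theorem fix_c (n : ℤ) (b : Bool) : (c ^ n) (fun _ => b) = fun _ => b := Perm.zpow_apply_eq_self_of_apply_eq_self (e_fix ..) n

theorem triv {a : List Bool} {φ : Perm X} (hφ : φ ∈ V) (h : Commute φ (On a c)) (k : Commute φ (On (a ++ [false]) c)) (w : X) :
    φ (cat a w) = cat a w := by
  obtain ⟨n, h⟩ := ns1 hφ h
  obtain ⟨m, k⟩ := ns1 hφ k
  have := k fun _ => true
  rw [fix_c, cat_append, h, cat_cons, cat_nil] at this
  simp [h, per (cat_inj a this)]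

theorem cat_one (b : Bool) {y : X} (h : y 0 = b) : cat [b] (sh 1 y) = y := cat_sh (y := y) (by simp [cat, h])

theorem rc (n : ℤ) (b : Bool) : (c ^ n, c ^ n) ∈ R (𝓝 fun _ => b) := mem_R .rfl (zpow_mem (e_mem true) n) (fix_c n b)

theorem ginj {m n : ℤ} (h : ⇑(c ^ m) =ᶠ[𝓝 fun _ => false] ⇑(c ^ n)) : m = n := germ_inj [] (by simpa [on_nil, cat_nil] using h)

theorem rh : (On [false] c, c) ∈ R (𝓝 fun _ => false) := mem_R ((cyl _ 3).mono fun w a => by
  have h0 := a 0 (by simp)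
  have h1 := a 1 (by simp)
  have h2 := a 2 (by simp)
  rw [← cat_one false h0, on_cat, cat_one false h0]
  funext i
  rcases i with _ | i <;> simp [c, e, s, sh, cat, h0, h1, h2]) (e_mem true) (e_fix ..)

theorem hfix (n : ℤ) {y : X} (h : y 0 = true) : (On [false] c ^ n) y = y := by
  rw [← map_zpow, on_not _ fun ⟨w, a⟩ => by simpa [cat, h] using congrFun a 0]

theorem rg (n : ℤ) : (On [false] c ^ n * c, c) ∈ R (𝓝 fun _ => true) := by
  simpa using mul_mem (mem_R (ψ := 1) ((cyl _ 1).mono fun w a => hfix n (a 0 one_pos)) (one_mem _) rfl) (rc 1 true)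

theorem att_g (n : ℕ) {y : X} (h : y ≠ fun _ => false) : Tendsto (fun j => ((On [false] c ^ (n : ℤ) * c) ^ j) y) atTop (𝓝 fun _ => true) := by
  simp only [Perm.coe_pow]
  refine att (fun y a => ?_) (fun k y a => ?_) h
  · rw [Perm.mul_apply, c, s1 _ _ a, ← c, hfix _ rfl]
  have c1 : ∀ k y, (∃ i ≤ k, y i = true) → ∃ i ≤ k, c y i = true := by
    rintro k y ⟨_ | i, a, b⟩
    · exact ⟨0, a, congrFun (s1 _ _ b) 0⟩
    · exact (s2 _ _ _ b).imp fun j d => ⟨by omega, d.2⟩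
  have : ∃ i ≤ k, c y i = true := s2 _ _ _ a
  rw [Perm.mul_apply, zpow_natCast]
  generalize c y = z at this ⊢
  induction n with
  | zero => exact this
  | succ n ih =>
    rw [pow_succ', Perm.mul_apply]
    generalize (On [false] c ^ n) z = z at ih ⊢
    obtain ⟨i, a, b⟩ := ih
    cases d : z 0
    · obtain _ | i := i
      · simp_all
      obtain ⟨j, a', b'⟩ := c1 i (sh 1 z) ⟨i, le_rfl, b⟩
      exact ⟨j + 1, by omega, by rw [← cat_one _ d, on_cat]; exact (cat_add [false] ..).trans b'⟩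
    · exact ⟨i, a, by simpa [b] using congrFun (hfix 1 d) i⟩

def cs : Fin 5 → List Bool := ![[], [false], [false, false], [true], [true, false]]

variable {Γ : Subgroup (Perm X)} (k : Fin 5 → Γ)

/-- equal near an end point -/
def E (b : Bool) (f g : Γ) : Prop := ∃ u φ : Γ, u * k 0 = k 0 * u ∧ f * u = g * u * φ ∧
  φ * k (cond b 3 1) = k (cond b 3 1) * φ ∧ φ * k (cond b 4 2) = k (cond b 4 2) * φ

def Mu (x y z : Γ) : Prop := z * k 0 = k 0 * z ∧ ∃ χ ζ : Γ, χ * k 1 = k 1 * χ ∧ χ * k 3 = k 3 * χ ∧ χ * k 4 = k 4 * χ ∧ E k false χ x ∧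
  ζ * (χ * k 0) = χ * k 0 * ζ ∧ E k true ζ y ∧ E k false ζ (z * y)

variable {k} (hV : Γ ≤ V) (hk : ∀ i, (k i).1 = On (cs i) c)
include hV hk

theorem e_iff (b : Bool) (f g : Γ) : E k b f g ↔ ⇑f.1 =ᶠ[𝓝 fun _ => b] ⇑g.1 := by
  have h3 : (k (cond b 3 1)).1 = On [b] c := by cases b <;> exact hk _
  have h4 : (k (cond b 4 2)).1 = On ([b] ++ [false]) c := by cases b <;> exact hk _
  have h0 : (k 0).1 = c := (hk 0).trans (on_nil c)
  simp only [E, Subtype.ext_iff, Subgroup.coe_mul, h3, h4]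
  constructor
  · rintro ⟨u, φ, h, d, i, j⟩
    obtain ⟨n, h⟩ := ns0 (hV u.2) (hk 0 ▸ h)
    refine ((rc n b).2.2.eventually (cyl _ 1)).mono fun w a => ?_
    have := congrArg (· ((c ^ n)⁻¹ w)) d
    simp only [Perm.mul_apply] at this
    rw [← cat_one b (a 0 one_pos), triv (hV φ.2) i j, cat_one b (a 0 one_pos)] at this
    simpa [h] using this
  · intro h
    obtain ⟨K, hK⟩ : ∃ K, ∀ w : X, (∀ i < K, w i = b) → f.1 w = g.1 w := by
      rw [nhds_pi] at h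
      obtain ⟨I, t, h2, h3⟩ := mem_pi'.1 h
      refine ⟨I.sup id + 1, fun w a => h3 (a := w) fun i d => ?_⟩
      rw [a i (Nat.lt_succ_of_le (Finset.le_sup (f := id) d))]
      exact mem_of_mem_nhds (h2 i)
    obtain ⟨u, hu, hc⟩ : ∃ u : Γ, u.1 = e b ^ K ∧ u.1 * (k 0).1 = (k 0).1 * u.1 := by
      cases b
      · exact ⟨(k 0)⁻¹ ^ K, by simp [h0]; rfl, congrArg Subtype.val ((Commute.refl (k 0)).inv_left.pow_left K).eq⟩
      · exact ⟨k 0 ^ K, by simp [h0]; rfl, congrArg Subtype.val ((Commute.refl (k 0)).pow_left K).eq⟩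
    have : ∀ w, ((g * u)⁻¹ * (f * u)).1 (cat [b] w) = cat [b] w := fun w => (Perm.inv_eq_iff_eq (f := (g * u).1)).2 (hK (u.1 (cat [b] w)) fun i a => by
      rw [hu, Perm.coe_pow]; exact up (s1 b) rfl K i a.le)
    exact ⟨u, (g * u)⁻¹ * (f * u), hc, by simp [mul_assoc], (comm_on c this).eq, (comm_on c fun w => by rw [cat_append, this]).eq⟩

theorem mu_sound {m : ℕ} {n : ℤ} {z : Γ} (h : Mu k (k 0 ^ (m : ℤ)) (k 0 ^ n) z) : z = k 0 ^ (m * n) := by
  have h0 : (k 0).1 = c := (hk 0).trans (on_nil c)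
  simp only [Mu, e_iff hV hk, Subtype.ext_iff, Subgroup.coe_mul, Subgroup.coe_zpow, h0] at h ⊢
  obtain ⟨h1, χ, ζ, h2, h3, h4, h5, h6, h7, h8⟩ := h
  obtain ⟨p, h1⟩ := ns0 (hV z.2) (by rwa [on_nil])
  obtain ⟨q, h2⟩ := ns1 (hV χ.2) (hk 1 ▸ h2)
  have h3 := triv (hV χ.2) (hk 3 ▸ h3) (hk 4 ▸ h4)
  have hχ : χ.1 = On [false] c ^ q := Perm.ext fun y => by
    cases d : y 0
    · rw [← cat_one _ d, ← map_zpow, on_cat]; exact h2 _
    · rw [hfix q d, ← cat_one _ d]; exact h3 _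
  rw [hχ] at h5 h6
  obtain rfl : q = m := ginj ((zpow_mem rh q).1.symm.trans h5)
  have : ∀ y, y ≠ (fun _ => false) → (((On [false] c ^ (m : ℤ) * c) ^ n)⁻¹ * ζ.1) y = y := fun y a =>
    fix_of (.mul_left ((Commute.refl _).zpow_left n).inv_left h6) ((h7.trans (zpow_mem (rg m) n).1.symm).mono fun w d =>
      Perm.inv_eq_iff_eq.2 d) (att_g m a)
  have : ((On [false] c ^ (m : ℤ) * c) ^ n)⁻¹ * ζ.1 = 1 := Perm.ext fun y => by_contra fun a =>
    a (Equiv.injective _ (this _ fun d => a (d.trans (by_contra fun d' => a (this y (Ne.symm d'))))))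
  rw [← inv_mul_eq_one.1 this, h1, ← zpow_add] at h8
  have := h8.symm.trans (zpow_mem (mul_mem (zpow_mem rh m) (rc 1 false)) n).1
  simp only [Prod.pow_snd, Prod.snd_mul, ← zpow_add, ← zpow_mul] at this
  rw [h1, show p = m * n by linarith [ginj this]]

theorem mu_comp (m n : ℤ) : Mu k (k 0 ^ m) (k 0 ^ n) (k 0 ^ (m * n)) := by
  have h0 : (k 0).1 = c := (hk 0).trans (on_nil c)
  have h1 : (k 1).1 = On [false] c := hk 1
  have t : ∀ w, (k 1 ^ m).1 (cat [true] w) = cat [true] w := fun w => by simpa [h1] using hfix m rfl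
  refine ⟨((Commute.refl _).zpow_left _).eq, k 1 ^ m, (k 1 ^ m * k 0) ^ n, ((Commute.refl _).zpow_left _).eq,
    Subtype.ext ?_, Subtype.ext ?_, ?_, ((Commute.refl _).zpow_left _).eq, ?_⟩
  · rw [Subgroup.coe_mul, Subgroup.coe_mul, hk 3]; exact (comm_on c t).eq
  · rw [Subgroup.coe_mul, Subgroup.coe_mul, hk 4]; exact (comm_on (a := [true] ++ [false]) c fun w => by rw [cat_append, t]).eq
  all_goals simp only [e_iff hV hk, Subgroup.coe_mul, Subgroup.coe_zpow, h0, h1]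
  · exact (zpow_mem rh m).1
  refine ⟨(zpow_mem (rg m) n).1, ?_⟩
  have := (zpow_mem (mul_mem (zpow_mem rh m) (rc 1 false)) n).1
  simp only [Prod.pow_snd, Prod.snd_mul, ← zpow_add, ← zpow_mul, add_mul, one_mul] at this ⊢
  simpa using this

theorem und : ¬ ComputablePred fun S : List (Unit × List (Fin 5 ⊕ ℕ) × List (Fin 5 ⊕ ℕ)) => ∃ σ, Sol k (fun _ => Eq) σ S := by
  have eq : ∀ {γ} {f g : (γ → Γ) → Γ}, TD k f → TD k g → SD k (fun _ : Unit => Eq) fun v => f v = g v := SD.atom ()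
  have h0 : (k 0).1 = c := (hk 0).trans (on_nil c)
  refine und_sys () (fun _ _ => .rfl) [0] (a := k 0) (by simp) (fun m n h => ?_) (Mu := Mu k)
    (SD.of_iff (P := fun v => ∃ y : Γ, ∃ y' z, ∃ u : Γ, ∃ u' w, ∃ p : Γ, ∃ p' q, ∃ r : Γ, ∃ r' t,
      (y * k 0 = k 0 * y ∧ y * y' = 1 ∧ Mu k y y z ∧ Mu k y' y' z) ∧ (u * k 0 = k 0 * u ∧ u * u' = 1 ∧ Mu k u u w ∧ Mu k u' u' w) ∧
      (p * k 0 = k 0 * p ∧ p * p' = 1 ∧ Mu k p p q ∧ Mu k p' p' q) ∧ (r * k 0 = k 0 * r ∧ r * r' = 1 ∧ Mu k r r t ∧ Mu k r' r' t) ∧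
      v () = z * w * q * t) ?_ fun v => ?_) ?_ fun x y z => ?_
  · have := congrArg Subtype.val h
    rw [Subgroup.coe_pow, Subgroup.coe_pow, h0, ← zpow_natCast, ← zpow_natCast] at this
    exact_mod_cast ginj (m := m) (n := n) (by rw [this])
  · unfold Mu E
    repeat' first | apply SD.ex | apply SD.and | apply eq | apply TD.var | apply TD.mul | apply TD.con | apply TD.one
  · have h1 : ∀ y y' z : Γ, y * k 0 = k 0 * y ∧ y * y' = 1 ∧ Mu k y y z ∧ Mu k y' y' z → ∃ n : ℕ, z = k 0 ^ n := by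
      rintro y y' z ⟨a, b, d, f⟩
      obtain ⟨n, a⟩ := ns0 (hV y.2) (hk 0 ▸ congrArg Subtype.val a)
      obtain rfl : y = k 0 ^ n := Subtype.ext (by simp [a, h0])
      obtain rfl := eq_inv_of_mul_eq_one_right b
      obtain ⟨m, rfl | rfl⟩ := n.eq_nat_or_neg
      · exact ⟨m * m, by exact_mod_cast mu_sound hV hk d⟩
      · exact ⟨m * m, by exact_mod_cast mu_sound hV hk (m := m) (n := m) (by simpa using f)⟩
    have h2 : ∀ n : ℕ, k 0 ^ n * k 0 = k 0 * k 0 ^ n ∧ k 0 ^ n * (k 0 ^ n)⁻¹ = 1 ∧ Mu k (k 0 ^ n) (k 0 ^ n) (k 0 ^ (n * n)) ∧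
        Mu k (k 0 ^ n)⁻¹ (k 0 ^ n)⁻¹ (k 0 ^ (n * n)) := fun n =>
      ⟨((Commute.refl _).pow_left _).eq, by simp, by exact_mod_cast mu_comp hV hk n n, by
        have := mu_comp hV hk (-n) (-n); simp only [neg_mul_neg, zpow_neg] at this; exact_mod_cast this⟩
    constructor
    · rintro ⟨_, _, _, _, _, _, _, _, _, _, _, _, a, b, d, f, g⟩
      obtain ⟨a', rfl⟩ := h1 _ _ _ a
      obtain ⟨b', rfl⟩ := h1 _ _ _ b
      obtain ⟨d', rfl⟩ := h1 _ _ _ d
      obtain ⟨f', rfl⟩ := h1 _ _ _ f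
      exact ⟨a' + b' + d' + f', by simp [g, pow_add]⟩
    · rintro ⟨n, h⟩
      obtain ⟨a, b, d, f, rfl⟩ := Nat.sum_four_squares n
      exact ⟨_, _, _, _, _, _, _, _, _, _, _, _, h2 a, h2 b, h2 d, h2 f, by simp [h, pow_add, pow_two]⟩
  · unfold Mu E
    repeat' first | apply SD.ex | apply SD.and | apply eq | apply TD.var | apply TD.mul | apply TD.con | apply TD.one
  · exact ⟨fun h => by exact_mod_cast mu_sound hV hk (m := x) (n := y) (by exact_mod_cast h), fun h => h ▸ by exact_mod_cast mu_comp hV hk x y⟩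

end Pool.Agent.H.MP_ed747a_al
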